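import Mathlib

/-!
# A sub-modular-cut of a realised modular cut need not be realised

Oriented matroids are given by the signed circuit axioms.  We exhibit a uniform oriented
matroid `O` of rank `5` on `8` elements (the alternating one), a simple single-element
extension `P` of `O` (by a point on the line spanned by the last two elements) with modular
cut `M`, and a modular cut `M' ⊆ M` such that no single-element extension of `O` has modular
cut `M'`.
-/

set_option autoImplicit false

namespace Pool.Agent.Results.MP_6e3918_co.SubModularCut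

/-- An oriented matroid on `E`, given by its signed circuits: a set of sign vectors satisfying
the circuit axioms (C0)-(C3). -/
structure OrientedMatroid (E : Type) where
  /-- the set of signed circuits -/
  circuits : Set (E → SignType)
  /-- (C0) the zero vector is not a circuit -/
  zero_notMem : (0 : E → SignType) ∉ circuits
  /-- (C1) symmetry -/
  neg_mem : ∀ X ∈ circuits, -X ∈ circuits
  /-- (C2) incomparability of supports -/
  incomparable : ∀ X ∈ circuits, ∀ Y ∈ circuits, (∀ e, X e ≠ 0 → Y e ≠ 0) → X = Y ∨ X = -Y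
  /-- (C3) weak circuit elimination -/
  elimination : ∀ X ∈ circuits, ∀ Y ∈ circuits, X ≠ -Y → ∀ e, X e = 1 → Y e = -1 →
    ∃ Z ∈ circuits, Z e = 0 ∧
      ∀ f, (Z f = 1 → X f = 1 ∨ Y f = 1) ∧ (Z f = -1 → X f = -1 ∨ Y f = -1)

namespace OrientedMatroid

variable {E : Type}

/-- Independent sets of the underlying matroid: sets containing no circuit. -/
def Indep (O : OrientedMatroid E) (I : Set E) : Prop :=
  ∀ X ∈ O.circuits, ∃ e, X e ≠ 0 ∧ e ∉ I

/-- Rank function of the underlying matroid (`E` is finite in all uses). -/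
noncomputable def rank (O : OrientedMatroid E) (A : Set E) : ℕ :=
  sSup {n | ∃ I : Set E, I ⊆ A ∧ O.Indep I ∧ I.ncard = n}

/-- Closure operator of the underlying matroid. -/
def closure (O : OrientedMatroid E) (A : Set E) : Set E :=
  {e | e ∈ A ∨ ∃ X ∈ O.circuits, X e ≠ 0 ∧ ∀ f, X f ≠ 0 → f ∈ A ∨ f = e}

/-- Flats of the underlying matroid. -/
def IsFlat (O : OrientedMatroid E) (F : Set E) : Prop := O.closure F = F

/-- Modular cuts of the underlying matroid. -/
structure IsModularCut (O : OrientedMatroid E) (M : Set (Set E)) : Prop where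
  isFlat : ∀ F ∈ M, O.IsFlat F
  up : ∀ F ∈ M, ∀ G, O.IsFlat G → F ⊆ G → G ∈ M
  modular : ∀ F ∈ M, ∀ G ∈ M,
    O.rank F + O.rank G = O.rank (F ∪ G) + O.rank (F ∩ G) → F ∩ G ∈ M

/-- `P`, on the ground set `E ∪ {p}` (`Option E`, with `p = none`), is a single-element
extension of `O`: deleting `p` from `P` gives `O`. -/
def IsExtensionOf (P : OrientedMatroid (Option E)) (O : OrientedMatroid E) : Prop :=
  ∀ X : Option E → SignType, X none = 0 → (X ∈ P.circuits ↔ (fun e => X (some e)) ∈ O.circuits)

/-- The single-element extension `P` of `O` corresponds to the modular cut `M`: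
`M` consists of the flats of `O` whose closure in `P` contains the new element. -/
def CorrespondsTo (P : OrientedMatroid (Option E)) (O : OrientedMatroid E)
    (M : Set (Set E)) : Prop :=
  M = {F | O.IsFlat F ∧ none ∈ P.closure (some '' F)}

end OrientedMatroid

open OrientedMatroid

/-! ### Realisable oriented matroids -/

section Realisable

variable {E : Type}

/-- Minimal support nonzero elements of a subspace. -/
def IsMin (L : Submodule ℚ (E → ℚ)) (z : E → ℚ) : Prop :=
  z ∈ L ∧ z ≠ 0 ∧ ∀ w ∈ L, w ≠ 0 → (∀ e, w e ≠ 0 → z e ≠ 0) → ∀ e, z e ≠ 0 → w e ≠ 0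

theorem exists_conformal [Fintype E] (L : Submodule ℚ (E → ℚ)) :
    ∀ (n : ℕ) (u : E → ℚ), (Finset.univ.filter (fun e => u e ≠ 0)).card = n → u ∈ L → u ≠ 0 →
      ∃ y, IsMin L y ∧ ∀ f, (0 < y f → 0 < u f) ∧ (y f < 0 → u f < 0) := by
  intro n
  induction n using Nat.strong_induction_on with
  | _ n ih =>
    intro u hn hu hu0
    by_cases hmin : IsMin L u
    · exact ⟨u, hmin, fun f => ⟨id, id⟩⟩
    · -- there is `w` with smaller support
      have hex : ∃ w ∈ L, w ≠ 0 ∧ (∀ e, w e ≠ 0 → u e ≠ 0) ∧ ∃ e, u e ≠ 0 ∧ w e = 0 := by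
        by_contra hcon
        apply hmin
        refine ⟨hu, hu0, ?_⟩
        intro w hw hw0 hsupp e hue hwe
        exact hcon ⟨w, hw, hw0, hsupp, e, hue, hwe⟩
      obtain ⟨w, hw, hw0, hsupp, e0, hue0, hwe0⟩ := hex
      -- choose the sign of `w`
      have hex2 : ∃ w' ∈ L, (∀ e, w' e ≠ 0 → u e ≠ 0) ∧ w' e0 = 0 ∧ ∃ f, 0 < u f * w' f := by
        obtain ⟨f, hf⟩ := Function.ne_iff.1 hw0
        have hf' : w f ≠ 0 := hf
        have huf := hsupp f hf'
        rcases lt_or_gt_of_ne (mul_ne_zero huf hf') with h | h
        · refine ⟨-w, L.neg_mem hw, ?_, ?_, f, ?_⟩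
          · intro e he
            apply hsupp e
            intro h'
            apply he
            simp [h']
          · simp [hwe0]
          · simp only [Pi.neg_apply, mul_neg]
            linarith
        · exact ⟨w, hw, hsupp, hwe0, f, h⟩
      obtain ⟨w', hw', hsupp', hwe0', f1, hf1⟩ := hex2
      obtain ⟨f2, hf2, hf2min⟩ := Finset.exists_min_image
        (Finset.univ.filter (fun f => 0 < u f * w' f)) (fun f => u f / w' f)
        ⟨f1, by simp [hf1]⟩
      simp only [Finset.mem_filter, Finset.mem_univ, true_and] at hf2 hf2min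
      have hw'f2 : w' f2 ≠ 0 := by
        intro h
        rw [h] at hf2
        simp at hf2
      set t := u f2 / w' f2 with ht
      have htpos : 0 < t := by
        rw [ht, div_pos_iff]
        rcases mul_pos_iff.1 hf2 with h | h
        · exact Or.inl h
        · exact Or.inr h
      have hconf : ∀ f, (0 < (u - t • w') f → 0 < u f) ∧ ((u - t • w') f < 0 → u f < 0) := by
        intro f
        simp only [Pi.sub_apply, Pi.smul_apply, smul_eq_mul]
        by_cases hpos : 0 < u f * w' f
        · have hmin := hf2min f hpos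
          rcases mul_pos_iff.1 hpos with ⟨h1, h2⟩ | ⟨h1, h2⟩
          · have h3 : t * w' f ≤ u f := by
              rwa [le_div_iff₀ h2] at hmin
            exact ⟨fun _ => h1, fun h => by linarith⟩
          · have h3 : u f ≤ t * w' f := by
              rwa [le_div_iff_of_neg h2] at hmin
            exact ⟨fun h => by linarith, fun _ => h1⟩
        · by_cases hwf : w' f = 0
          · rw [hwf]
            simp
          · have huf := hsupp' f hwf
            have hneg : u f * w' f < 0 := lt_of_le_of_ne (not_lt.1 hpos) (mul_ne_zero huf hwf)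
            rcases mul_neg_iff.1 hneg with ⟨h1, h2⟩ | ⟨h1, h2⟩
            · have h3 : t * w' f < 0 := mul_neg_of_pos_of_neg htpos h2
              exact ⟨fun _ => h1, fun h => by linarith⟩
            · have h3 : 0 < t * w' f := mul_pos htpos h2
              exact ⟨fun h => by linarith, fun _ => h1⟩
      have hy0 : (u - t • w') ≠ 0 := by
        intro h
        have := congrFun h e0
        simp only [Pi.sub_apply, Pi.smul_apply, smul_eq_mul, Pi.zero_apply] at this
        rw [hwe0'] at this
        apply hue0
        linarith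
      have hcard : (Finset.univ.filter (fun e => (u - t • w') e ≠ 0)).card < n := by
        rw [← hn]
        apply Finset.card_lt_card
        rw [Finset.ssubset_iff_of_subset]
        · refine ⟨f2, ?_, ?_⟩
          · simp only [Finset.mem_filter, Finset.mem_univ, true_and]
            exact hsupp' f2 hw'f2
          · simp only [Finset.mem_filter, Finset.mem_univ, true_and, not_not, Pi.sub_apply,
              Pi.smul_apply, smul_eq_mul]
            rw [ht, div_mul_cancel₀ _ hw'f2]
            ring
        · intro e he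
          simp only [Finset.mem_filter, Finset.mem_univ, true_and] at he ⊢
          intro hue
          apply he
          have hwe : w' e = 0 := by
            by_contra h
            exact hsupp' e h hue
          simp only [Pi.sub_apply, Pi.smul_apply, smul_eq_mul]
          rw [hue, hwe]
          ring
      obtain ⟨y, hy, hyc⟩ := ih _ hcard (u - t • w') rfl
        (L.sub_mem hu (L.smul_mem t hw')) hy0
      exact ⟨y, hy, fun f => ⟨fun h => (hconf f).1 ((hyc f).1 h), fun h => (hconf f).2 ((hyc f).2 h)⟩⟩

/-- The oriented matroid of a linear subspace of dependencies. -/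
def ofSubspace [Fintype E] (L : Submodule ℚ (E → ℚ)) : OrientedMatroid E where
  circuits := {X | ∃ z, IsMin L z ∧ X = fun e => SignType.sign (z e)}
  zero_notMem := by
    rintro ⟨z, hz, h⟩
    apply hz.2.1
    funext e
    have := congrFun h e
    simp only [Pi.zero_apply] at this
    exact sign_eq_zero_iff.1 this.symm
  neg_mem := by
    rintro X ⟨z, hz, rfl⟩
    refine ⟨-z, ⟨L.neg_mem hz.1, neg_ne_zero.2 hz.2.1, ?_⟩, ?_⟩
    · intro w hw hw0 hs e he
      refine hz.2.2 w hw hw0 (fun f hf => ?_) e ?_
      · have := hs f hf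
        simpa using this
      · simpa using he
    · funext e
      simp [Left.sign_neg]
  incomparable := by
    rintro X ⟨z, hz, rfl⟩ Y ⟨w, hw, rfl⟩ hXY
    have hs : ∀ e, z e ≠ 0 → w e ≠ 0 := by
      intro e he hwe
      apply hXY e (fun h => he (sign_eq_zero_iff.1 h))
      show SignType.sign (w e) = 0
      rw [hwe, sign_zero]
    obtain ⟨e, he⟩ := Function.ne_iff.1 hz.2.1
    have he' : z e ≠ 0 := he
    have hwe := hs e he'
    set c := w e / z e with hc
    have hc0 : c ≠ 0 := div_ne_zero hwe he'
    have hu : w - c • z = 0 := by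
      by_contra hu
      have h1 := hw.2.2 (w - c • z) (L.sub_mem hw.1 (L.smul_mem c hz.1)) hu (by
        intro f hf hwf
        have hzf : z f = 0 := by
          by_contra h
          exact hs f h hwf
        apply hf
        simp [hwf, hzf]) e hwe
      apply h1
      simp only [Pi.sub_apply, Pi.smul_apply, smul_eq_mul]
      rw [hc, div_mul_cancel₀ _ he']
      ring
    have hw' : ∀ f, w f = c * z f := by
      intro f
      have := congrFun hu f
      simp only [Pi.sub_apply, Pi.smul_apply, smul_eq_mul, Pi.zero_apply] at this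
      linarith
    rcases lt_or_gt_of_ne hc0 with h | h
    · right
      funext f
      simp only [Pi.neg_apply]
      rw [hw' f, sign_mul, sign_neg h]
      simp
    · left
      funext f
      rw [hw' f, sign_mul, sign_pos h, one_mul]
  elimination := by
    rintro X ⟨z, hz, rfl⟩ Y ⟨w, hw, rfl⟩ hXY e hXe hYe
    have hze : 0 < z e := sign_eq_one_iff.1 hXe
    have hwe : w e < 0 := sign_eq_neg_one_iff.1 hYe
    have hu : (-w e) • z + (z e) • w ≠ 0 := by
      intro h
      apply hXY
      funext f
      have := congrFun h f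
      simp only [Pi.add_apply, Pi.smul_apply, smul_eq_mul, Pi.zero_apply] at this
      simp only [Pi.neg_apply]
      have h2 : (-w e) * z f = z e * (-w f) := by linarith
      have h3 : SignType.sign ((-w e) * z f) = SignType.sign (z e * (-w f)) := by rw [h2]
      rw [sign_mul, sign_mul, sign_pos (neg_pos.2 hwe), sign_pos hze, one_mul, one_mul,
        Left.sign_neg] at h3
      exact h3
    obtain ⟨y, hy, hyc⟩ := exists_conformal L _ ((-w e) • z + (z e) • w) rfl
      (L.add_mem (L.smul_mem _ hz.1) (L.smul_mem _ hw.1)) hu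
    refine ⟨_, ⟨y, hy, rfl⟩, ?_, ?_⟩
    · show SignType.sign (y e) = 0
      rw [sign_eq_zero_iff]
      have h0 : ((-w e) • z + (z e) • w) e = 0 := by
        simp only [Pi.add_apply, Pi.smul_apply, smul_eq_mul]
        ring
      rcases lt_trichotomy (y e) 0 with h | h | h
      · have := (hyc e).2 h
        rw [h0] at this
        exact absurd this (lt_irrefl _)
      · exact h
      · have := (hyc e).1 h
        rw [h0] at this
        exact absurd this (lt_irrefl _)
    · intro f
      constructor
      · intro hf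
        have h1 := (hyc f).1 (sign_eq_one_iff.1 hf)
        simp only [Pi.add_apply, Pi.smul_apply, smul_eq_mul] at h1
        by_contra hcon
        push Not at hcon
        have hzf : z f ≤ 0 := by
          by_contra h
          exact hcon.1 (sign_pos (not_le.1 h))
        have hwf : w f ≤ 0 := by
          by_contra h
          exact hcon.2 (sign_pos (not_le.1 h))
        have h2 : (-w e) * z f ≤ 0 := mul_nonpos_of_nonneg_of_nonpos (by linarith) hzf
        have h3 : z e * w f ≤ 0 := mul_nonpos_of_nonneg_of_nonpos hze.le hwf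
        linarith
      · intro hf
        have h1 := (hyc f).2 (sign_eq_neg_one_iff.1 hf)
        simp only [Pi.add_apply, Pi.smul_apply, smul_eq_mul] at h1
        by_contra hcon
        push Not at hcon
        have hzf : 0 ≤ z f := by
          by_contra h
          exact hcon.1 (sign_neg (not_le.1 h))
        have hwf : 0 ≤ w f := by
          by_contra h
          exact hcon.2 (sign_neg (not_le.1 h))
        have h2 : 0 ≤ (-w e) * z f := mul_nonneg (by linarith) hzf
        have h3 : 0 ≤ z e * w f := mul_nonneg hze.le hwf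
        linarith

/-- The linear dependencies of a vector configuration. -/
def dep {K : Type} [Fintype E] (v : E → K → ℚ) : Submodule ℚ (E → ℚ) where
  carrier := {z | ∀ k : K, ∑ e : E, z e * v e k = 0}
  add_mem' := by
    intro a b ha hb k
    have h1 := ha k
    have h2 := hb k
    simp only [Pi.add_apply, add_mul, Finset.sum_add_distrib, h1, h2, add_zero]
  zero_mem' := by
    intro k
    simp
  smul_mem' := by
    intro c z hz k
    have h1 := hz k
    simp only [Pi.smul_apply, smul_eq_mul, mul_assoc, ← Finset.mul_sum, h1, mul_zero]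

theorem mem_dep {K : Type} [Fintype E] (v : E → K → ℚ) (z : E → ℚ) :
    z ∈ dep v ↔ ∀ k : K, ∑ e : E, z e * v e k = 0 := Iff.rfl

theorem ext_of_realisable {K : Type} [Fintype E] (v : E → K → ℚ) (p : K → ℚ) :
    (ofSubspace (dep (fun o : Option E => o.elim p v))).IsExtensionOf (ofSubspace (dep v)) := by
  have key : ∀ z : Option E → ℚ, z none = 0 →
      (z ∈ dep (fun o : Option E => o.elim p v) ↔ (fun e => z (some e)) ∈ dep v) := by
    intro z hz
    rw [mem_dep, mem_dep]
    apply forall_congr'
    intro k
    rw [Fintype.sum_option, hz]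
    simp
  have keyext : ∀ w : E → ℚ, w ∈ dep v →
      (fun o : Option E => o.elim 0 w) ∈ dep (fun o : Option E => o.elim p v) := by
    intro w hw
    rw [key _ rfl]
    exact hw
  intro X hX
  constructor
  · rintro ⟨z, hz, rfl⟩
    have hz0 : z none = 0 := sign_eq_zero_iff.1 hX
    refine ⟨fun e => z (some e), ⟨(key z hz0).1 hz.1, ?_, ?_⟩, rfl⟩
    · intro h
      apply hz.2.1
      funext o
      cases o with
      | none => exact hz0
      | some e => exact congrFun h e
    · intro w hw hw0 hs e he
      have h1 := hz.2.2 _ (keyext w hw) (by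
        intro h
        apply hw0
        funext e
        exact congrFun h (some e)) (by
        intro o ho
        cases o with
        | none => exact absurd rfl ho
        | some e => exact hs e ho) (some e) he
      exact h1
  · rintro ⟨z, hz, hXz⟩
    refine ⟨fun o => o.elim 0 z, ⟨keyext z hz.1, ?_, ?_⟩, ?_⟩
    · intro h
      apply hz.2.1
      funext e
      exact congrFun h (some e)
    · intro w hw hw0 hs o ho
      cases o with
      | none => exact absurd rfl ho
      | some e =>
        have hwn : w none = 0 := by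
          by_contra h
          exact hs none h rfl
        refine hz.2.2 (fun e => w (some e)) ((key w hwn).1 hw) ?_ (fun e he => hs (some e) he) e ho
        intro h
        apply hw0
        funext o
        cases o with
        | none => exact hwn
        | some e => exact congrFun h e
    · funext o
      cases o with
      | none => simpa using hX
      | some e => exact congrFun hXz e

end Realisable

/-! ### The alternating oriented matroid of rank `5` on `8` elements -/

/-- The points `(1, i, i², i³, i⁴)` of the moment curve, `i = 0, …, 7`. -/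
def vec (i : Fin 8) (k : Fin 5) : ℚ := (i.val : ℚ) ^ k.val

/-- The new vector: the sum of the last two. -/
def pvec (k : Fin 5) : ℚ := vec 6 k + vec 7 k

/-- The alternating oriented matroid of rank `5` on `8` elements. -/
def altO : OrientedMatroid (Fin 8) := ofSubspace (dep vec)

/-- Its extension by a point on the line spanned by the last two elements. -/
def extP : OrientedMatroid (Option (Fin 8)) :=
  ofSubspace (dep (fun o : Option (Fin 8) => o.elim pvec vec))

theorem poly_dep {z : Fin 8 → ℚ} (hz : z ∈ dep vec) (f : Polynomial ℚ) (hf : f.natDegree < 5) :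
    ∑ i : Fin 8, z i * f.eval (i.val : ℚ) = 0 := by
  have h1 : ∀ i : Fin 8, f.eval (i.val : ℚ)
      = ∑ k ∈ Finset.range 5, f.coeff k * (i.val : ℚ) ^ k :=
    fun i => Polynomial.eval_eq_sum_range' hf _
  simp_rw [h1, Finset.mul_sum]
  rw [Finset.sum_comm]
  apply Finset.sum_eq_zero
  intro k hk
  have h2 := hz ⟨k, by simpa using hk⟩
  calc ∑ i : Fin 8, z i * (f.coeff k * (i.val : ℚ) ^ k)
      = f.coeff k * ∑ i : Fin 8, z i * vec i ⟨k, by simpa using hk⟩ := by
        rw [Finset.mul_sum]
        apply Finset.sum_congr rfl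
        intro i _
        show z i * (f.coeff k * (i.val : ℚ) ^ k) = f.coeff k * (z i * (i.val : ℚ) ^ k)
        ring
    _ = 0 := by rw [h2, mul_zero]

theorem prod_dep {z : Fin 8 → ℚ} (hz : z ∈ dep vec) (S : Finset (Fin 8)) (hS : S.card < 5) :
    ∑ i : Fin 8, z i * ∏ j ∈ S, ((i.val : ℚ) - (j.val : ℚ)) = 0 := by
  have h := poly_dep hz (∏ j ∈ S, (Polynomial.X - Polynomial.C (j.val : ℚ))) (by
    rw [Polynomial.natDegree_prod_of_monic _ _ (fun j _ => Polynomial.monic_X_sub_C _),
      Finset.sum_congr rfl (fun j _ => Polynomial.natDegree_X_sub_C _)]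
    simpa using hS)
  rw [← h]
  apply Finset.sum_congr rfl
  intro i _
  rw [Polynomial.eval_prod]
  simp

theorem big_support {z : Fin 8 → ℚ} (hz : z ∈ dep vec)
    (hcard : (Finset.univ.filter (fun e => z e ≠ 0)).card ≤ 5) : z = 0 := by
  by_contra hz0
  obtain ⟨i, hi⟩ := Function.ne_iff.1 hz0
  have hi' : z i ≠ 0 := hi
  set S := Finset.univ.filter (fun e => z e ≠ 0) with hS
  have hiS : i ∈ S := by simp [hS, hi']
  have h := prod_dep hz (S.erase i) (by
    rw [Finset.card_erase_of_mem hiS]
    omega)
  rw [Finset.sum_eq_single i] at h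
  · rcases mul_eq_zero.1 h with h | h
    · exact hi' h
    · obtain ⟨j, hj, hj0⟩ := Finset.prod_eq_zero_iff.1 h
      have h1 : (i.val : ℚ) = (j.val : ℚ) := by linarith
      have h2 : i = j := Fin.ext (by exact_mod_cast h1)
      exact (Finset.mem_erase.1 hj).1 h2.symm
  · intro j _ hji
    by_cases hzj : z j = 0
    · rw [hzj, zero_mul]
    · rw [Finset.prod_eq_zero (i := j), mul_zero]
      · exact Finset.mem_erase.2 ⟨hji, by simp [hS, hzj]⟩
      · ring
  · intro h'
    exact absurd (Finset.mem_univ i) h'

theorem isMin_of_card {z : Fin 8 → ℚ} (hz : z ∈ dep vec) (hz0 : z ≠ 0)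
    (hcard : (Finset.univ.filter (fun e => z e ≠ 0)).card ≤ 6) : IsMin (dep vec) z := by
  refine ⟨hz, hz0, ?_⟩
  intro w hw hw0 hs e he hwe
  apply hw0
  apply big_support hw
  have h1 : (Finset.univ.filter (fun e => w e ≠ 0)) ⊆
      (Finset.univ.filter (fun e => z e ≠ 0)).erase e := by
    intro f hf
    simp only [Finset.mem_filter, Finset.mem_univ, true_and, Finset.mem_erase] at hf ⊢
    refine ⟨?_, hs f hf⟩
    rintro rfl
    exact hf hwe
  have h2 := Finset.card_le_card h1
  rw [Finset.card_erase_of_mem (by simp [he])] at h2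
  omega

theorem exists_dep (S : Finset (Fin 8)) (hS : S.card = 6) :
    ∃ z ∈ dep vec, z ≠ 0 ∧ ∀ e, z e ≠ 0 → e ∈ S := by
  classical
  let T : ({x // x ∈ S} → ℚ) →ₗ[ℚ] (Fin 5 → ℚ) :=
    { toFun := fun a k => ∑ e : {x // x ∈ S}, a e * vec e.1 k
      map_add' := by
        intro a b
        funext k
        simp [add_mul, Finset.sum_add_distrib]
      map_smul' := by
        intro c a
        funext k
        simp [mul_assoc, Finset.mul_sum] }
  have hker : LinearMap.ker T ≠ ⊥ := by
    apply LinearMap.ker_ne_bot_of_finrank_lt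
    simp [hS]
  obtain ⟨a, ha, ha0⟩ := (Submodule.ne_bot_iff _).1 hker
  refine ⟨fun i => if h : i ∈ S then a ⟨i, h⟩ else 0, ?_, ?_, ?_⟩
  · intro k
    have h1 := congrFun (LinearMap.mem_ker.1 ha) k
    have h2 : T a k = ∑ e : {x // x ∈ S}, a e * vec e.1 k := rfl
    rw [h2] at h1
    have h3 : ∑ e : Fin 8, (if h : e ∈ S then a ⟨e, h⟩ else 0) * vec e k
        = ∑ e ∈ S, (if h : e ∈ S then a ⟨e, h⟩ else 0) * vec e k := by
      symm
      apply Finset.sum_subset (Finset.subset_univ S)
      intro e _ he
      rw [dif_neg he, zero_mul]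
    rw [h3, ← Finset.sum_coe_sort S (fun e => (if h : e ∈ S then a ⟨e, h⟩ else 0) * vec e k)]
    have h4 : ∀ e : {x // x ∈ S},
        (if h : e.1 ∈ S then a ⟨e.1, h⟩ else 0) * vec e.1 k = a e * vec e.1 k := by
      intro e
      rw [dif_pos e.2]
    rw [Finset.sum_congr rfl (fun e _ => h4 e)]
    exact h1
  · intro h
    apply ha0
    funext e
    have h1 := congrFun h e.1
    simp only [dif_pos e.2] at h1
    exact h1
  · intro e he
    by_contra h
    exact he (dif_neg h)

/-- Every circuit of `altO` has at least six elements. -/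
theorem circuit_card {X : Fin 8 → SignType} (hX : X ∈ altO.circuits) :
    6 ≤ (Finset.univ.filter (fun e => X e ≠ 0)).card := by
  obtain ⟨z, hz, rfl⟩ := hX
  by_contra hcon
  apply hz.2.1
  apply big_support hz.1
  have h1 : (Finset.univ.filter (fun e => z e ≠ 0))
      = (Finset.univ.filter (fun e => (fun e => SignType.sign (z e)) e ≠ 0)) := by
    ext e
    simp [sign_eq_zero_iff]
  rw [h1]
  omega

theorem circuit_not_subset {X : Fin 8 → SignType} (hX : X ∈ altO.circuits) (A : Set (Fin 8))
    (hA : A.ncard ≤ 5) : ¬ ∀ e, X e ≠ 0 → e ∈ A := by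
  intro h
  have h1 := circuit_card hX
  have h2 : ((Finset.univ.filter (fun e => X e ≠ 0) : Finset (Fin 8)) : Set (Fin 8)) ⊆ A := by
    intro e he
    simp only [Finset.coe_filter, Finset.mem_univ, true_and, Set.mem_ofPred_eq] at he
    exact h e he
  have h3 := Set.ncard_le_ncard h2 (Set.toFinite A)
  rw [Set.ncard_coe_finset] at h3
  omega

/-- Every six-element set is the support of a circuit of `altO`. -/
theorem exists_circuit (S : Finset (Fin 8)) (hS : S.card = 6) :
    ∃ X ∈ altO.circuits, ∀ e, X e ≠ 0 ↔ e ∈ S := by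
  obtain ⟨z, hz, hz0, hzS⟩ := exists_dep S hS
  have hsub : (Finset.univ.filter (fun e => z e ≠ 0)) ⊆ S := by
    intro e he
    simp only [Finset.mem_filter, Finset.mem_univ, true_and] at he
    exact hzS e he
  have hcard : 6 ≤ (Finset.univ.filter (fun e => z e ≠ 0)).card := by
    by_contra hcon
    exact hz0 (big_support hz (by omega))
  have heq : (Finset.univ.filter (fun e => z e ≠ 0)) = S :=
    Finset.eq_of_subset_of_card_le hsub (by omega)
  refine ⟨_, ⟨z, isMin_of_card hz hz0 ((Finset.card_le_card hsub).trans hS.le), rfl⟩, ?_⟩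
  intro e
  rw [← heq]
  simp [sign_eq_zero_iff]

theorem indep_iff (A : Set (Fin 8)) : altO.Indep A ↔ A.ncard ≤ 5 := by
  constructor
  · intro h
    by_contra hcon
    obtain ⟨S, hSA, hS⟩ := Set.exists_subset_card_eq (s := A) (n := 6) (by omega)
    obtain ⟨X, hX, hXS⟩ := exists_circuit (Set.toFinite S).toFinset (by
      rw [← Set.ncard_eq_toFinset_card S (Set.toFinite S), hS])
    obtain ⟨e, he, heA⟩ := h X hX
    rw [hXS, Set.Finite.mem_toFinset] at he
    exact heA (hSA he)
  · intro h X hX
    by_contra hcon
    push Not at hcon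
    exact circuit_not_subset hX A h hcon

theorem rank_eq (A : Set (Fin 8)) : altO.rank A = min A.ncard 5 := by
  have hset : {n | ∃ I : Set (Fin 8), I ⊆ A ∧ altO.Indep I ∧ I.ncard = n}
      = Set.Iic (min A.ncard 5) := by
    ext n
    constructor
    · rintro ⟨I, hIA, hI, rfl⟩
      rw [indep_iff] at hI
      exact le_min (Set.ncard_le_ncard hIA (Set.toFinite A)) hI
    · intro hn
      have hn' : n ≤ min A.ncard 5 := hn
      obtain ⟨I, hIA, hI⟩ := Set.exists_subset_card_eq (s := A) (n := n) (by omega)
      refine ⟨I, hIA, ?_, hI⟩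
      rw [indep_iff]
      omega
  rw [OrientedMatroid.rank, hset, csSup_Iic]

theorem isFlat_of_card {F : Set (Fin 8)} (hF : F.ncard ≤ 4) : altO.IsFlat F := by
  apply Set.Subset.antisymm
  · rintro e (he | ⟨X, hX, hXe, hXF⟩)
    · exact he
    · exfalso
      refine circuit_not_subset hX (insert e F) ?_ ?_
      · exact (Set.ncard_insert_le e F).trans (by omega)
      · intro f hf
        rcases hXF f hf with h | h
        · exact Or.inr h
        · exact Or.inl h
  · intro e he
    exact Or.inl he

theorem isFlat_univ : altO.IsFlat Set.univ := by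
  apply Set.Subset.antisymm (Set.subset_univ _)
  intro e he
  exact Or.inl he

theorem flat_cases {F : Set (Fin 8)} (hF : altO.IsFlat F) : F.ncard ≤ 4 ∨ F = Set.univ := by
  by_cases h : F.ncard ≤ 4
  · exact Or.inl h
  · right
    by_contra hne
    obtain ⟨e, he⟩ := (Set.ne_univ_iff_exists_notMem F).1 hne
    obtain ⟨S, hSF, hS⟩ := Set.exists_subset_card_eq (s := F) (n := 5) (by omega)
    have heS : e ∉ S := fun h => he (hSF h)
    have hcard : (insert e S).ncard = 6 := by
      rw [Set.ncard_insert_of_notMem heS (Set.toFinite S), hS]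
    obtain ⟨X, hX, hXS⟩ := exists_circuit (Set.toFinite (insert e S)).toFinset (by
      rw [← Set.ncard_eq_toFinset_card _ (Set.toFinite (insert e S)), hcard])
    apply he
    rw [← hF]
    refine Or.inr ⟨X, hX, ?_, ?_⟩
    · rw [hXS, Set.Finite.mem_toFinset]
      exact Set.mem_insert e S
    · intro f hf
      rw [hXS, Set.Finite.mem_toFinset] at hf
      rcases hf with hf | hf
      · exact Or.inr hf
      · exact Or.inl (hSF hf)

/-! ### The extension `extP` -/

/-- Move the weight of the new element to the last two elements. -/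
def push (z : Option (Fin 8) → ℚ) (i : Fin 8) : ℚ :=
  z (some i) + if i = 6 ∨ i = 7 then z none else 0

theorem push_mem (z : Option (Fin 8) → ℚ) :
    z ∈ dep (fun o : Option (Fin 8) => o.elim pvec vec) ↔ push z ∈ dep vec := by
  rw [mem_dep, mem_dep]
  apply forall_congr'
  intro k
  rw [Fintype.sum_option]
  have h1 : ∀ i : Fin 8, push z i * vec i k
      = z (some i) * vec i k + (if i = 6 ∨ i = 7 then z none else 0) * vec i k := by
    intro i
    rw [push, add_mul]
  rw [Finset.sum_congr rfl (fun i _ => h1 i), Finset.sum_add_distrib]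
  have h2 : ∑ i : Fin 8, (if i = 6 ∨ i = 7 then z none else 0) * vec i k = z none * pvec k := by
    rw [Fin.sum_univ_eight]
    simp [pvec]
    ring
  rw [h2]
  simp only [Option.elim_none, Option.elim_some]
  rw [add_comm]

theorem push_eq_zero {z : Option (Fin 8) → ℚ} (h : push z = 0) :
    (∀ i : Fin 8, i ≠ 6 → i ≠ 7 → z (some i) = 0) ∧ z (some 6) = - z none ∧
      z (some 7) = - z none := by
  refine ⟨?_, ?_, ?_⟩
  · intro i h6 h7
    have := congrFun h i
    simpa [push, h6, h7] using this
  · have := congrFun h 6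
    simp [push] at this
    linarith
  · have := congrFun h 7
    simp [push] at this
    linarith

/-- Every nonzero dependency of the extended configuration has at least three nonzero
coordinates. -/
theorem ext_support {z : Option (Fin 8) → ℚ}
    (hz : z ∈ dep (fun o : Option (Fin 8) => o.elim pvec vec)) (A : Set (Option (Fin 8)))
    (hA : A.ncard ≤ 2) (hzA : ∀ o, z o ≠ 0 → o ∈ A) : z = 0 := by
  rw [push_mem] at hz
  have hsmall : push z = 0 := by
    apply big_support hz
    have h1 : ((Finset.univ.filter (fun e => push z e ≠ 0) : Finset (Fin 8)) : Set (Fin 8))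
        ⊆ (some ⁻¹' A) ∪ ({6, 7} : Set (Fin 8)) := by
      intro i hi
      simp only [Finset.coe_filter, Finset.mem_univ, true_and, Set.mem_ofPred_eq] at hi
      by_cases h6 : i = 6
      · exact Or.inr (by simp [h6])
      · by_cases h7 : i = 7
        · exact Or.inr (by simp [h7])
        · left
          apply hzA
          simpa [push, h6, h7] using hi
    have h2 := Set.ncard_le_ncard h1 (Set.toFinite _)
    rw [Set.ncard_coe_finset] at h2
    have h3 := Set.ncard_union_le (some ⁻¹' A) ({6, 7} : Set (Fin 8))
    have h4 : (some ⁻¹' A : Set (Fin 8)).ncard ≤ A.ncard := by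
      rw [← Set.ncard_image_of_injective (some ⁻¹' A : Set (Fin 8)) (Option.some_injective _)]
      exact Set.ncard_le_ncard (Set.image_preimage_subset _ _) (Set.toFinite A)
    have h5 : ({6, 7} : Set (Fin 8)).ncard ≤ 2 := by
      rw [Set.ncard_pair (by decide)]
    omega
  obtain ⟨h1, h2, h3⟩ := push_eq_zero hsmall
  by_cases hn : z none = 0
  · funext o
    cases o with
    | none => exact hn
    | some i =>
      by_cases h6 : i = 6
      · rw [h6, h2, hn]
        simp
      · by_cases h7 : i = 7
        · rw [h7, h3, hn]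
          simp
        · exact h1 i h6 h7
  · exfalso
    have h4 : ({none, some 6, some 7} : Set (Option (Fin 8))) ⊆ A := by
      intro o ho
      simp only [Set.mem_insert_iff, Set.mem_singleton_iff] at ho
      apply hzA
      rcases ho with rfl | rfl | rfl
      · exact hn
      · rw [h2]
        simpa using hn
      · rw [h3]
        simpa using hn
    have h5 := Set.ncard_le_ncard h4 (Set.toFinite _)
    have h6 : ({none, some 6, some 7} : Set (Option (Fin 8))).ncard = 3 := by
      rw [Set.ncard_eq_three]
      exact ⟨none, some 6, some 7, by simp, by simp, by decide, rfl⟩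
    omega

theorem ext_simple (A : Set (Option (Fin 8))) (hA : A.ncard ≤ 2) : extP.Indep A := by
  rintro X ⟨z, hz, rfl⟩
  by_contra hcon
  push Not at hcon
  apply hz.2.1
  apply ext_support hz.1 A hA
  intro o ho
  apply hcon o
  intro h
  exact ho (sign_eq_zero_iff.1 h)

/-- The circuit formed by the new element and the last two elements. -/
def lineVec (o : Option (Fin 8)) : ℚ := o.elim (-1) (fun i => if i = 6 ∨ i = 7 then 1 else 0)

theorem lineVec_isMin : IsMin (dep (fun o : Option (Fin 8) => o.elim pvec vec)) lineVec := by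
  refine ⟨?_, ?_, ?_⟩
  · rw [push_mem]
    have : push lineVec = 0 := by
      funext i
      by_cases h : i = 6 ∨ i = 7
      · simp [push, lineVec, h]
      · simp [push, lineVec, h]
    rw [this]
    exact Submodule.zero_mem _
  · intro h
    have := congrFun h none
    simp [lineVec] at this
  · intro w hw hw0 hs e he hwe
    apply hw0
    have hsub : ∀ o, w o ≠ 0 → o ∈ ({none, some 6, some 7} : Set (Option (Fin 8))) \ {e} := by
      intro o ho
      refine ⟨?_, ?_⟩
      · have h1 := hs o ho
        cases o with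
        | none => simp
        | some i =>
          by_cases h : i = 6 ∨ i = 7
          · rcases h with rfl | rfl <;> simp
          · exact absurd (by simp [lineVec, h]) h1
      · rintro rfl
        exact ho hwe
    have he' : e ∈ ({none, some 6, some 7} : Set (Option (Fin 8))) := by
      cases e with
      | none => simp
      | some i =>
        by_cases h : i = 6 ∨ i = 7
        · rcases h with rfl | rfl <;> simp
        · exact absurd (by simp [lineVec, h]) he
    refine ext_support hw _ ?_ hsub
    have h6 : ({none, some 6, some 7} : Set (Option (Fin 8))).ncard = 3 := by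
      rw [Set.ncard_eq_three]
      exact ⟨none, some 6, some 7, by simp, by simp, by decide, rfl⟩
    have h7 := Set.ncard_sdiff_singleton_of_mem he'
    omega

/-- The modular cut of `extP`: all flats containing the last two elements. -/
def bigCut : Set (Set (Fin 8)) := {F | altO.IsFlat F ∧ 6 ∈ F ∧ 7 ∈ F}

theorem closure_mono {E : Type} (O : OrientedMatroid E) {A B : Set E} (h : A ⊆ B) :
    O.closure A ⊆ O.closure B := by
  rintro e (he | ⟨X, hX, hXe, hXA⟩)
  · exact Or.inl (h he)
  · exact Or.inr ⟨X, hX, hXe, fun f hf => (hXA f hf).imp (fun h' => h h') id⟩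

theorem bigCut_isModularCut : altO.IsModularCut bigCut := by
  refine ⟨fun F hF => hF.1, fun F hF G hG hFG => ⟨hG, hFG hF.2.1, hFG hF.2.2⟩, ?_⟩
  intro F hF G hG _
  refine ⟨?_, ⟨hF.2.1, hG.2.1⟩, ⟨hF.2.2, hG.2.2⟩⟩
  apply Set.Subset.antisymm
  · intro e he
    refine ⟨?_, ?_⟩
    · rw [← hF.1]
      exact closure_mono altO Set.inter_subset_left he
    · rw [← hG.1]
      exact closure_mono altO Set.inter_subset_right he
  · intro e he
    exact Or.inl he

theorem extP_corresponds : extP.CorrespondsTo altO bigCut := by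
  ext F
  constructor
  · rintro ⟨hF, h6, h7⟩
    refine ⟨hF, Or.inr ⟨_, ⟨lineVec, lineVec_isMin, rfl⟩, ?_, ?_⟩⟩
    · show SignType.sign (lineVec none) ≠ 0
      rw [Ne, sign_eq_zero_iff]
      simp [lineVec]
    · intro o ho
      have ho' : lineVec o ≠ 0 := fun h => ho (sign_eq_zero_iff.2 h)
      cases o with
      | none => exact Or.inr rfl
      | some i =>
        left
        by_cases h : i = 6 ∨ i = 7
        · rcases h with rfl | rfl
          · exact ⟨6, h6, rfl⟩
          · exact ⟨7, h7, rfl⟩
        · exact absurd (by simp [lineVec, h]) ho'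
  · rintro ⟨hF, hcl⟩
    refine ⟨hF, ?_⟩
    rcases flat_cases hF with hF4 | hFu
    swap
    · rw [hFu]
      exact ⟨Set.mem_univ _, Set.mem_univ _⟩
    rcases hcl with hcl | ⟨X, ⟨z, hz, rfl⟩, hzn, hzF⟩
    · obtain ⟨i, _, hi⟩ := hcl
      exact absurd hi (by simp)
    have hzn' : z none ≠ 0 := fun h => hzn (sign_eq_zero_iff.2 h)
    have hzF' : ∀ i, z (some i) ≠ 0 → i ∈ F := by
      intro i hi
      rcases hzF (some i) (fun h => hi (sign_eq_zero_iff.1 h)) with h | h
      · obtain ⟨j, hj, hji⟩ := h
        rw [← Option.some_injective _ hji]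
        exact hj
      · exact absurd h (by simp)
    have hw : push z ∈ dep vec := (push_mem z).1 hz.1
    have hsupp : ∀ i, i ≠ 6 → i ≠ 7 → push z i ≠ 0 → i ∈ F := by
      intro i h6 h7 hi
      apply hzF'
      simpa [push, h6, h7] using hi
    have hsmall : ∀ a : Fin 8, (∀ i, push z i ≠ 0 → i ∈ insert a F) → push z = 0 := by
      intro a ha
      apply big_support hw
      have h1 : ((Finset.univ.filter (fun e => push z e ≠ 0) : Finset (Fin 8)) : Set (Fin 8))
          ⊆ insert a F := by
        intro i hi
        simp only [Finset.coe_filter, Finset.mem_univ, true_and, Set.mem_ofPred_eq] at hi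
        exact ha i hi
      have h2 := Set.ncard_le_ncard h1 (Set.toFinite _)
      rw [Set.ncard_coe_finset] at h2
      have h3 := Set.ncard_insert_le a F
      omega
    have hp6 : push z 6 = z (some 6) + z none := by simp [push]
    have hp7 : push z 7 = z (some 7) + z none := by simp [push]
    by_cases h6 : (6 : Fin 8) ∈ F
    · refine ⟨h6, ?_⟩
      by_contra h7
      have h8 : z (some 7) = 0 := by
        by_contra h
        exact h7 (hzF' 7 h)
      have h9 := hsmall 7 (by
        intro i hi
        by_cases hi7 : i = 7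
        · exact Or.inl hi7
        · right
          by_cases hi6 : i = 6
          · rw [hi6]; exact h6
          · exact hsupp i hi6 hi7 hi)
      have h10 := congrFun h9 7
      rw [hp7, h8, zero_add] at h10
      exact hzn' h10
    · exfalso
      have h8 : z (some 6) = 0 := by
        by_contra h
        exact h6 (hzF' 6 h)
      by_cases h7 : (7 : Fin 8) ∈ F
      · have h9 := hsmall 6 (by
          intro i hi
          by_cases hi6 : i = 6
          · exact Or.inl hi6
          · right
            by_cases hi7 : i = 7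
            · rw [hi7]; exact h7
            · exact hsupp i hi6 hi7 hi)
        have h10 := congrFun h9 6
        rw [hp6, h8, zero_add] at h10
        exact hzn' h10
      · have h9 : z (some 7) = 0 := by
          by_contra h
          exact h7 (hzF' 7 h)
        rw [h8, zero_add] at hp6
        rw [h9, zero_add] at hp7
        set S := (Set.toFinite F).toFinset with hS
        have hScard : S.card < 5 := by
          rw [hS, ← Set.ncard_eq_toFinset_card F (Set.toFinite F)]
          omega
        have hSF : ∀ i, i ∈ S ↔ i ∈ F := by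
          intro i
          rw [hS, Set.Finite.mem_toFinset]
        have hprod := prod_dep hw S hScard
        have hzero : ∀ i : Fin 8, i ≠ 6 → i ≠ 7 →
            push z i * ∏ j ∈ S, ((i.val : ℚ) - (j.val : ℚ)) = 0 := by
          intro i hi6 hi7
          by_cases hi : push z i = 0
          · rw [hi, zero_mul]
          · rw [Finset.prod_eq_zero (i := i), mul_zero]
            · rw [hSF]
              exact hsupp i hi6 hi7 hi
            · ring
        rw [Fin.sum_univ_eight, hzero 0 (by decide) (by decide), hzero 1 (by decide) (by decide),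
          hzero 2 (by decide) (by decide), hzero 3 (by decide) (by decide),
          hzero 4 (by decide) (by decide), hzero 5 (by decide) (by decide), hp6, hp7] at hprod
        have hpos : ∀ a : Fin 8, 6 ≤ a.val → 0 < ∏ j ∈ S, ((a.val : ℚ) - (j.val : ℚ)) := by
          intro a ha
          apply Finset.prod_pos
          intro j hj
          have hjF := (hSF j).1 hj
          have hj6 : j ≠ 6 := by
            rintro rfl
            exact h6 hjF
          have hj7 : j ≠ 7 := by
            rintro rfl
            exact h7 hjF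
          have hjv : j.val < a.val := by
            have h1 : j.val ≠ 6 := fun h => hj6 (Fin.ext h)
            have h2 : j.val ≠ 7 := fun h => hj7 (Fin.ext h)
            have h3 := j.isLt
            omega
          have : (j.val : ℚ) < (a.val : ℚ) := by exact_mod_cast hjv
          linarith
        have h10 := hpos 6 (by decide)
        have h11 := hpos 7 (by decide)
        have h12 : z none * ((∏ j ∈ S, (((6 : Fin 8).val : ℚ) - (j.val : ℚ)))
            + ∏ j ∈ S, (((7 : Fin 8).val : ℚ) - (j.val : ℚ))) = 0 := by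
          rw [mul_add]
          linarith
        rcases mul_eq_zero.1 h12 with h | h
        · exact hzn' h
        · linarith

/-! ### The sub-modular-cut -/

/-- The first hyperplane. -/
def H1 : Set (Fin 8) := {0, 1, 6, 7}
/-- The second hyperplane. -/
def H2 : Set (Fin 8) := {2, 3, 6, 7}
/-- The third hyperplane. -/
def H3 : Set (Fin 8) := {4, 5, 6, 7}

/-- The sub-modular-cut: three hyperplanes through the line `{6, 7}`, and the ground set. -/
def smallCut : Set (Set (Fin 8)) := {H1, H2, H3, Set.univ}

theorem ncard_finset (S : Finset (Fin 8)) (A : Set (Fin 8)) (h : A = (S : Set (Fin 8))) :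
    A.ncard = S.card := by
  rw [h, Set.ncard_coe_finset]

theorem H1_eq : H1 = (({0, 1, 6, 7} : Finset (Fin 8)) : Set (Fin 8)) := by
  simp [H1]
theorem H2_eq : H2 = (({2, 3, 6, 7} : Finset (Fin 8)) : Set (Fin 8)) := by
  simp [H2]
theorem H3_eq : H3 = (({4, 5, 6, 7} : Finset (Fin 8)) : Set (Fin 8)) := by
  simp [H3]

theorem H1_card : H1.ncard = 4 := by rw [ncard_finset _ _ H1_eq]; rfl
theorem H2_card : H2.ncard = 4 := by rw [ncard_finset _ _ H2_eq]; rfl
theorem H3_card : H3.ncard = 4 := by rw [ncard_finset _ _ H3_eq]; rfl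

theorem smallCut_flat : ∀ F ∈ smallCut, altO.IsFlat F := by
  rintro F (rfl | rfl | rfl | rfl)
  · exact isFlat_of_card H1_card.le
  · exact isFlat_of_card H2_card.le
  · exact isFlat_of_card H3_card.le
  · exact isFlat_univ

theorem up_aux {H G : Set (Fin 8)} (hH : H.ncard = 4) (hG : altO.IsFlat G) (hHG : H ⊆ G) :
    G = H ∨ G = Set.univ := by
  rcases flat_cases hG with h | h
  · left
    exact (Set.eq_of_subset_of_ncard_le hHG (by omega) (Set.toFinite G)).symm
  · exact Or.inr h

theorem pair_aux {A B : Finset (Fin 8)} (h1 : A.card = 4) (h2 : B.card = 4)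
    (h3 : (A ∪ B).card = 6) (h4 : (A ∩ B).card = 2)
    (h : altO.rank (A : Set (Fin 8)) + altO.rank (B : Set (Fin 8))
      = altO.rank ((A : Set (Fin 8)) ∪ B) + altO.rank ((A : Set (Fin 8)) ∩ B)) : False := by
  rw [← Finset.coe_union, ← Finset.coe_inter, rank_eq, rank_eq, rank_eq, rank_eq,
    Set.ncard_coe_finset, Set.ncard_coe_finset, Set.ncard_coe_finset, Set.ncard_coe_finset,
    h1, h2, h3, h4] at h
  omega

theorem smallCut_isModularCut : altO.IsModularCut smallCut := by
  refine ⟨smallCut_flat, ?_, ?_⟩
  · rintro F (rfl | rfl | rfl | rfl) G hG hFG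
    · rcases up_aux H1_card hG hFG with h | h
      · exact Or.inl h
      · exact Or.inr (Or.inr (Or.inr h))
    · rcases up_aux H2_card hG hFG with h | h
      · exact Or.inr (Or.inl h)
      · exact Or.inr (Or.inr (Or.inr h))
    · rcases up_aux H3_card hG hFG with h | h
      · exact Or.inr (Or.inr (Or.inl h))
      · exact Or.inr (Or.inr (Or.inr h))
    · exact Or.inr (Or.inr (Or.inr (Set.univ_subset_iff.1 hFG)))
  · intro F hF G hG h
    by_cases hFu : F = Set.univ
    · rw [hFu, Set.univ_inter]
      exact hG
    by_cases hGu : G = Set.univ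
    · rw [hGu, Set.inter_univ]
      exact hF
    by_cases hFG : F = G
    · rw [hFG, Set.inter_self]
      exact hG
    exfalso
    rcases hF with rfl | rfl | rfl | hF
    · rcases hG with rfl | rfl | rfl | hG
      · exact hFG rfl
      · rw [H1_eq, H2_eq] at h
        exact pair_aux (by decide) (by decide) (by decide) (by decide) h
      · rw [H1_eq, H3_eq] at h
        exact pair_aux (by decide) (by decide) (by decide) (by decide) h
      · exact hGu hG
    · rcases hG with rfl | rfl | rfl | hG
      · rw [H1_eq, H2_eq] at h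
        exact pair_aux (by decide) (by decide) (by decide) (by decide) h
      · exact hFG rfl
      · rw [H2_eq, H3_eq] at h
        exact pair_aux (by decide) (by decide) (by decide) (by decide) h
      · exact hGu hG
    · rcases hG with rfl | rfl | rfl | hG
      · rw [H1_eq, H3_eq] at h
        exact pair_aux (by decide) (by decide) (by decide) (by decide) h
      · rw [H2_eq, H3_eq] at h
        exact pair_aux (by decide) (by decide) (by decide) (by decide) h
      · exact hFG rfl
      · exact hGu hG
    · exact hFu hF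

theorem smallCut_subset : smallCut ⊆ bigCut := by
  intro F hF
  refine ⟨smallCut_flat F hF, ?_⟩
  rcases hF with rfl | rfl | rfl | rfl
  · simp [H1]
  · simp [H2]
  · simp [H3]
  · simp

/-! ### Non-realisability -/

theorem moments {z : Fin 8 → ℚ} (hz : z ∈ dep vec) :
    z 0 + z 1 + z 2 + z 3 + z 4 + z 5 + z 6 + z 7 = 0 ∧
    z 1 + 2 * z 2 + 3 * z 3 + 4 * z 4 + 5 * z 5 + 6 * z 6 + 7 * z 7 = 0 ∧
    z 1 + 4 * z 2 + 9 * z 3 + 16 * z 4 + 25 * z 5 + 36 * z 6 + 49 * z 7 = 0 ∧
    z 1 + 8 * z 2 + 27 * z 3 + 64 * z 4 + 125 * z 5 + 216 * z 6 + 343 * z 7 = 0 ∧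
    z 1 + 16 * z 2 + 81 * z 3 + 256 * z 4 + 625 * z 5 + 1296 * z 6 + 2401 * z 7 = 0 := by
  have h0 := hz 0
  have h1 := hz 1
  have h2 := hz 2
  have h3 := hz 3
  have h4 := hz 4
  rw [Fin.sum_univ_eight] at h0 h1 h2 h3 h4
  simp [vec] at h0 h1 h2 h3 h4
  refine ⟨?_, ?_, ?_, ?_, ?_⟩
  · linarith
  · linarith
  · linarith
  · linarith
  · linarith

theorem sign_aux {a b x y : ℚ} (ha : 0 < a) (hb : 0 < b) (h : a * x = b * y) :
    SignType.sign x = SignType.sign y := by
  have h1 : SignType.sign (a * x) = SignType.sign (b * y) := by rw [h]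
  rwa [sign_mul, sign_mul, sign_pos ha, sign_pos hb, one_mul, one_mul] at h1

/-- In the circuit of `altO` with support `{0,1,2,3,6,7}`, `0` and `2` have the same sign. -/
theorem sign_one {Z : Fin 8 → SignType} (hZ : Z ∈ altO.circuits)
    (h : ∀ e, Z e ≠ 0 → e ∈ ({0, 1, 2, 3, 6, 7} : Set (Fin 8))) : Z 0 = Z 2 := by
  obtain ⟨z, hz, rfl⟩ := hZ
  obtain ⟨m0, m1, m2, m3, m4⟩ := moments hz.1
  have h4 : z 4 = 0 := by
    by_contra hc
    have := h 4 (fun h' => hc (sign_eq_zero_iff.1 h'))
    revert this
    decide
  have h5 : z 5 = 0 := by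
    by_contra hc
    have := h 5 (fun h' => hc (sign_eq_zero_iff.1 h'))
    revert this
    decide
  exact sign_aux (a := 126) (b := 20) (by norm_num) (by norm_num) (by linarith)

theorem sign_two {Z : Fin 8 → SignType} (hZ : Z ∈ altO.circuits)
    (h : ∀ e, Z e ≠ 0 → e ∈ ({0, 1, 4, 5, 6, 7} : Set (Fin 8))) : Z 0 = Z 4 := by
  obtain ⟨z, hz, rfl⟩ := hZ
  obtain ⟨m0, m1, m2, m3, m4⟩ := moments hz.1
  have h2 : z 2 = 0 := by
    by_contra hc
    have := h 2 (fun h' => hc (sign_eq_zero_iff.1 h'))
    revert this
    decide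
  have h3 : z 3 = 0 := by
    by_contra hc
    have := h 3 (fun h' => hc (sign_eq_zero_iff.1 h'))
    revert this
    decide
  exact sign_aux (a := 210) (b := 18) (by norm_num) (by norm_num) (by linarith)

theorem sign_three {Z : Fin 8 → SignType} (hZ : Z ∈ altO.circuits)
    (h : ∀ e, Z e ≠ 0 → e ∈ ({2, 3, 4, 5, 6, 7} : Set (Fin 8))) : Z 2 = Z 4 := by
  obtain ⟨z, hz, rfl⟩ := hZ
  obtain ⟨m0, m1, m2, m3, m4⟩ := moments hz.1
  have h0 : z 0 = 0 := by
    by_contra hc
    have := h 0 (fun h' => hc (sign_eq_zero_iff.1 h'))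
    revert this
    decide
  have h1 : z 1 = 0 := by
    by_contra hc
    have := h 1 (fun h' => hc (sign_eq_zero_iff.1 h'))
    revert this
    decide
  exact sign_aux (a := 60) (b := 6) (by norm_num) (by norm_num) (by linarith)

/-- If the extension has the new element in the closure of `H`, there is a circuit through the
new element, positive there, inside `H ∪ {p}`. -/
theorem circuit_through (P : OrientedMatroid (Option (Fin 8))) (H : Set (Fin 8))
    (h : none ∈ P.closure (some '' H)) :
    ∃ X ∈ P.circuits, X none = 1 ∧ ∀ i, X (some i) ≠ 0 → i ∈ H := by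
  rcases h with h | ⟨X, hX, hXn, hXH⟩
  · obtain ⟨i, _, hi⟩ := h
    exact absurd hi (by simp)
  · have key : ∀ i, X (some i) ≠ 0 → i ∈ H := by
      intro i hi
      rcases hXH (some i) hi with h | h
      · obtain ⟨j, hj, hji⟩ := h
        rw [← Option.some_injective _ hji]
        exact hj
      · exact absurd h (by simp)
    rcases SignType.trichotomy (X none) with h | h | h
    · refine ⟨-X, P.neg_mem X hX, by simp [h], ?_⟩
      intro i hi
      apply key
      simpa using hi
    · exact absurd h hXn
    · exact ⟨X, hX, h, key⟩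

/-- Elimination of the new element from two circuits through it. -/
theorem eliminate (P : OrientedMatroid (Option (Fin 8))) (hP : P.IsExtensionOf altO)
    {X Y : Option (Fin 8) → SignType} (hX : X ∈ P.circuits) (hY : Y ∈ P.circuits)
    (hXn : X none = 1) (hYn : Y none = 1) (hXY : X ≠ Y) :
    ∃ Z ∈ altO.circuits,
      ∀ i, (Z i ≠ 0 → X (some i) ≠ 0 ∨ Y (some i) ≠ 0) ∧
        (Y (some i) = 0 → Z i ≠ 0 → X (some i) = Z i) ∧
        (X (some i) = 0 → Z i ≠ 0 → Y (some i) = - Z i) := by
  obtain ⟨Z, hZ, hZn, hZf⟩ := P.elimination X hX (-Y) (P.neg_mem Y hY)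
    (by rwa [neg_neg]) none hXn (by simp [hYn])
  refine ⟨fun i => Z (some i), (hP Z hZn).1 hZ, ?_⟩
  intro i
  have h1 := (hZf (some i)).1
  have h2 := (hZf (some i)).2
  simp only [Pi.neg_apply] at h1 h2 ⊢
  have key : ∀ a b c : SignType, (a = 1 → b = 1 ∨ -c = 1) → (a = -1 → b = -1 ∨ -c = -1) →
      (a ≠ 0 → b ≠ 0 ∨ c ≠ 0) ∧ (c = 0 → a ≠ 0 → b = a) ∧ (b = 0 → a ≠ 0 → c = -a) := by
    decide
  exact key _ _ _ h1 h2

theorem no_extension (P : OrientedMatroid (Option (Fin 8))) (hP : P.IsExtensionOf altO) :
    ¬ P.CorrespondsTo altO smallCut := by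
  intro hcorr
  have hin : ∀ H ∈ smallCut, none ∈ P.closure (some '' H) := by
    intro H hH
    have : H ∈ {F | altO.IsFlat F ∧ none ∈ P.closure (some '' F)} := by
      rw [← hcorr]
      exact hH
    exact this.2
  -- the line `{6,7}` is not in the cut
  have hline : none ∉ P.closure (some '' ({6, 7} : Set (Fin 8))) := by
    intro h
    have h1 : ({6, 7} : Set (Fin 8)) ∈ smallCut := by
      rw [hcorr]
      refine ⟨isFlat_of_card ?_, h⟩
      rw [Set.ncard_pair (by decide)]
      norm_num
    have h2 : ({6, 7} : Set (Fin 8)).ncard = 2 := Set.ncard_pair (by decide)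
    rcases h1 with h1 | h1 | h1 | h1
    · rw [h1, H1_card] at h2
      omega
    · rw [h1, H2_card] at h2
      omega
    · rw [h1, H3_card] at h2
      omega
    · rw [h1, Set.ncard_univ, Nat.card_eq_fintype_card, Fintype.card_fin] at h2
      omega
  obtain ⟨X1, hX1, hX1n, hX1s⟩ := circuit_through P H1 (hin H1 (Or.inl rfl))
  obtain ⟨X2, hX2, hX2n, hX2s⟩ := circuit_through P H2 (hin H2 (Or.inr (Or.inl rfl)))
  obtain ⟨X3, hX3, hX3n, hX3s⟩ := circuit_through P H3 (hin H3 (Or.inr (Or.inr (Or.inl rfl))))
  have hne : ∀ (X Y : Option (Fin 8) → SignType) (A B : Set (Fin 8)), X ∈ P.circuits →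
      X none = 1 → (∀ i, X (some i) ≠ 0 → i ∈ A) → (∀ i, Y (some i) ≠ 0 → i ∈ B) →
      (∀ i, i ∈ A → i ∈ B → i ∈ ({6, 7} : Set (Fin 8))) → X ≠ Y := by
    intro X Y A B hX hXn hXA hYB hAB hXY
    apply hline
    refine Or.inr ⟨X, hX, by rw [hXn]; decide, ?_⟩
    intro o ho
    cases o with
    | none => exact Or.inr rfl
    | some i =>
      left
      exact ⟨i, hAB i (hXA i ho) (hYB i (hXY ▸ ho)), rfl⟩
  have z1 : ∀ i, i ∉ H1 → X1 (some i) = 0 := fun i hi => by
    by_contra h
    exact hi (hX1s i h)
  have z2 : ∀ i, i ∉ H2 → X2 (some i) = 0 := fun i hi => by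
    by_contra h
    exact hi (hX2s i h)
  have z3 : ∀ i, i ∉ H3 → X3 (some i) = 0 := fun i hi => by
    by_contra h
    exact hi (hX3s i h)
  have hn12 : X1 ≠ X2 := hne X1 X2 H1 H2 hX1 hX1n hX1s hX2s (by
    simp only [H1, H2, Set.mem_insert_iff, Set.mem_singleton_iff]
    decide)
  have hn13 : X1 ≠ X3 := hne X1 X3 H1 H3 hX1 hX1n hX1s hX3s (by
    simp only [H1, H3, Set.mem_insert_iff, Set.mem_singleton_iff]
    decide)
  have hn23 : X2 ≠ X3 := hne X2 X3 H2 H3 hX2 hX2n hX2s hX3s (by
    simp only [H2, H3, Set.mem_insert_iff, Set.mem_singleton_iff]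
    decide)
  obtain ⟨Z12, hZ12, hf12⟩ := eliminate P hP hX1 hX2 hX1n hX2n hn12
  obtain ⟨Z13, hZ13, hf13⟩ := eliminate P hP hX1 hX3 hX1n hX3n hn13
  obtain ⟨Z23, hZ23, hf23⟩ := eliminate P hP hX2 hX3 hX2n hX3n hn23
  have hs12 : ∀ e, Z12 e ≠ 0 → e ∈ ({0, 1, 2, 3, 6, 7} : Set (Fin 8)) := by
    intro e he
    have h1 : e ∈ H1 ∨ e ∈ H2 := ((hf12 e).1 he).imp (hX1s e) (hX2s e)
    clear he
    revert h1
    simp only [H1, H2, Set.mem_insert_iff, Set.mem_singleton_iff]
    revert e
    decide
  have hs13 : ∀ e, Z13 e ≠ 0 → e ∈ ({0, 1, 4, 5, 6, 7} : Set (Fin 8)) := by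
    intro e he
    have h1 : e ∈ H1 ∨ e ∈ H3 := ((hf13 e).1 he).imp (hX1s e) (hX3s e)
    clear he
    revert h1
    simp only [H1, H3, Set.mem_insert_iff, Set.mem_singleton_iff]
    revert e
    decide
  have hs23 : ∀ e, Z23 e ≠ 0 → e ∈ ({2, 3, 4, 5, 6, 7} : Set (Fin 8)) := by
    intro e he
    have h1 : e ∈ H2 ∨ e ∈ H3 := ((hf23 e).1 he).imp (hX2s e) (hX3s e)
    clear he
    revert h1
    simp only [H2, H3, Set.mem_insert_iff, Set.mem_singleton_iff]
    revert e
    decide
  have hnz : ∀ (Z : Fin 8 → SignType) (S : Finset (Fin 8)) (a : Fin 8), Z ∈ altO.circuits →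
      (∀ e, Z e ≠ 0 → e ∈ S) → (S.erase a).card ≤ 5 → Z a ≠ 0 := by
    intro Z S a hZ hZS hcard ha
    refine circuit_not_subset hZ (S.erase a : Finset (Fin 8)) ?_ ?_
    · rw [Set.ncard_coe_finset]
      exact hcard
    · intro e he
      rw [Finset.mem_coe, Finset.mem_erase]
      exact ⟨fun h => he (h ▸ ha), hZS e he⟩
  have n12 : ∀ a, (({0, 1, 2, 3, 6, 7} : Finset (Fin 8)).erase a).card ≤ 5 → Z12 a ≠ 0 :=
    fun a ha => hnz Z12 {0, 1, 2, 3, 6, 7} a hZ12 (fun e he => by simpa using hs12 e he) ha
  have n13 : ∀ a, (({0, 1, 4, 5, 6, 7} : Finset (Fin 8)).erase a).card ≤ 5 → Z13 a ≠ 0 :=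
    fun a ha => hnz Z13 {0, 1, 4, 5, 6, 7} a hZ13 (fun e he => by simpa using hs13 e he) ha
  have n23 : ∀ a, (({2, 3, 4, 5, 6, 7} : Finset (Fin 8)).erase a).card ≤ 5 → Z23 a ≠ 0 :=
    fun a ha => hnz Z23 {2, 3, 4, 5, 6, 7} a hZ23 (fun e he => by simpa using hs23 e he) ha
  have a1 : X1 (some 0) = Z12 0 :=
    (hf12 0).2.1 (z2 0 (by simp [H2])) (n12 0 (by decide))
  have a2 : X2 (some 2) = - Z12 2 :=
    (hf12 2).2.2 (z1 2 (by simp [H1])) (n12 2 (by decide))
  have a3 := sign_one hZ12 hs12
  have b1 : X1 (some 0) = Z13 0 :=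
    (hf13 0).2.1 (z3 0 (by simp [H3])) (n13 0 (by decide))
  have b2 : X3 (some 4) = - Z13 4 :=
    (hf13 4).2.2 (z1 4 (by simp [H1])) (n13 4 (by decide))
  have b3 := sign_two hZ13 hs13
  have c1 : X2 (some 2) = Z23 2 :=
    (hf23 2).2.1 (z3 2 (by simp [H3])) (n23 2 (by decide))
  have c2 : X3 (some 4) = - Z23 4 :=
    (hf23 4).2.2 (z2 4 (by simp [H2])) (n23 4 (by decide))
  have c3 := sign_three hZ23 hs23
  have hZ0 := n12 0 (by decide)
  rw [← a1] at a3 hZ0
  rw [← b1] at b3
  rw [← c1] at c3
  rw [← a3] at a2
  rw [← b3] at b2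
  rw [← c3, a2, b2, neg_neg] at c2
  revert hZ0 c2
  generalize X1 (some 0) = x
  revert x
  decide

/-- **Negative answer.**  There are an oriented matroid `O` (uniform, of rank `5`, on `8`
elements), a single-element extension `P` of `O` without loops or parallel elements,
corresponding to a modular cut `M`, and a modular cut `M' ⊆ M` such that no single-element
extension of `O` corresponds to `M'`. -/
theorem result :
    ∃ (O : OrientedMatroid (Fin 8)) (P : OrientedMatroid (Option (Fin 8)))
      (M M' : Set (Set (Fin 8))),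
      (∀ A : Set (Fin 8), O.Indep A ↔ A.ncard ≤ 5) ∧
      P.IsExtensionOf O ∧
      (∀ A : Set (Option (Fin 8)), A.ncard ≤ 2 → P.Indep A) ∧
      O.IsModularCut M ∧ P.CorrespondsTo O M ∧
      O.IsModularCut M' ∧ M' ⊆ M ∧
      ∀ P' : OrientedMatroid (Option (Fin 8)), P'.IsExtensionOf O → ¬ P'.CorrespondsTo O M' :=
  ⟨altO, extP, bigCut, smallCut, indep_iff, ext_of_realisable vec pvec, ext_simple,
    bigCut_isModularCut, extP_corresponds, smallCut_isModularCut, smallCut_subset, no_extension⟩

end Pool.Agent.Results.MP_6e3918_co.SubModularCut
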